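import Pool.Agent.V11317.Had.Dual2

set_option autoImplicit false

/-!
# MP_5e7226_co: convex bodies in cones over their sections through the interior point

Let `K` be a convex body in `ℝ^d` and `o` an interior point. Let `p_1, ..., p_d` be linearly independent vectors such
that `o + p_i` is a point of `K`, and let `H_i` be the hyperplane through `o` which contains the points `o + p_j`,
`j ≠ i`. Consider the condition

  (C_i) `K` lies in the cone with the apex `o + p_i` over the section of `K` by `H_i`.

1. If (C_i) holds for `i = 3, ..., d` then the faces of `K` can be separated from `o` by `2^d` hyperplanes.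
2. If (C_i) holds for all `i`, then both parts of the conjecture are true for `(K, o)`: `2^d - 1` hyperplanes suffice
   unless `K` is a cross-body centred at `o`. (It is easy to see, but not formalised here, that the convex hull `K` of
   `o + p_1, ..., o + p_d` and `o - M` is of this kind for every set `M` of vectors with nonnegative coordinates with
   respect to the basis `p_1, ..., p_d` such that the coordinates of the vectors of `M` may be replaced by zero without
   leaving `M`, if `K` is a convex body with `o` in its interior; for the cross-bodies with the vertices `o + p_i`,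
   `o - t_i p_i` the set `M` consists of the segments from `0` to `t_i p_i`.)
3. If the polar body of `K` with respect to `o` has a shadow facet (a shadow section) which is covered by `N`
   translates of its relative interior, then `2 N` (or `3 N`) hyperplanes suffice.

The proof. Condition (C_i) means that for every `v` in the polar body `P` the vector `v'` with `⟪v', p_i⟫ = 1` and
`⟪v', p_j⟫ = ⟪v, p_j⟫` for `j ≠ i` is also in `P`. So the affine map `v ↦ (1 - ⟪v, p_i⟫)_i` maps `P` onto an
anti-blocking body, for which the covering number is known (`MP_eba1ef_gt.ShadowFacets`): a point `x` of it is moved by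
a small amount `-b` in the directions of its large coordinates and by a far smaller amount `a` in the directions of
its small coordinates, which leads to the interior; and one of the directions can be omitted unless the body is a box.
If it is a box, `K` is a cross-body.
-/

open scoped InnerProductSpace

namespace Pool.Agent.Results.MP_5e7226_co.BodiesInCones

/-- the space `ℝ^d` -/
abbrev E (d : ℕ) : Type := EuclideanSpace ℝ (Fin d)

/-- the face of `K` in the direction `u` (where `⟪u, ·⟫` is maximal on `K`) -/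
def face {d : ℕ} (K : Set (E d)) (u : E d) : Set (E d) := {x ∈ K | ∀ y ∈ K, ⟪u, y⟫_ℝ ≤ ⟪u, x⟫_ℝ}

/-- the hyperplane `{x | ⟪h.1, x⟫ = h.2}` strictly separates the set `S` from the point `o` -/
def Sep {d : ℕ} (o : E d) (h : E d × ℝ) (S : Set (E d)) : Prop :=
  ⟪h.1, o⟫_ℝ < h.2 ∧ ∀ x ∈ S, h.2 < ⟪h.1, x⟫_ℝ

/-- `s(K, o) ≤ n`: there are at most `n` hyperplanes such that every face of `K` is strictly separated
from `o` by one of them -/
def SepBy {d : ℕ} (K : Set (E d)) (o : E d) (n : ℕ) : Prop :=
  ∃ H : Finset (E d × ℝ), H.card ≤ n ∧ (∀ h ∈ H, h.1 ≠ 0) ∧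
    ∀ u : E d, u ≠ 0 → ∃ h ∈ H, Sep o h (face K u)

/-- `K` is a cross-body centred at `o` -/
def CrossBody {d : ℕ} (K : Set (E d)) (o : E d) : Prop :=
  ∃ (v : Fin d → E d) (t : Fin d → ℝ), LinearIndependent ℝ v ∧ (∀ i, 0 < t i) ∧
    K = convexHull ℝ (Set.range (fun i => o + v i) ∪ Set.range (fun i => o - t i • v i))

/-- `o + p i ∈ K`, and `K` lies in the cone with the apex `o + p i` over the section of `K` by the hyperplane through
`o` spanned by the vectors `p j`, `j ≠ i` -/
def InCone {d : ℕ} (K : Set (E d)) (o : E d) (p : Fin d → E d) (i : Fin d) : Prop :=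
  o + p i ∈ K ∧ ∀ y ∈ K, ∃ z ∈ K, z - o ∈ Submodule.span ℝ (p '' {j | j ≠ i}) ∧
    ∃ s : ℝ, 0 ≤ s ∧ y = (o + p i) + s • (z - (o + p i))

/-- the polar body of `K` with respect to `o` -/
def polar {d : ℕ} (K : Set (E d)) (o : E d) : Set (E d) := {v | ∀ y ∈ K, ⟪v, y - o⟫_ℝ ≤ 1}

/-- `A` is covered by at most `N` translates of its relative interior. -/
def RelCoveredBy {d : ℕ} (A : Set (E d)) (N : ℕ) : Prop :=
  ∃ T : Finset (E d), T.card ≤ N ∧ A ⊆ ⋃ t ∈ T, (fun x => t + x) '' intrinsicInterior ℝ A

/-- `F` is the section of `P` by the hyperplane `φ = c`, and the projection onto this hyperplane along `v` maps `P`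
into itself. -/
def ShadowBy {d : ℕ} (P F : Set (E d)) (φ : E d →L[ℝ] ℝ) (c : ℝ) (v : E d) : Prop :=
  φ v = 1 ∧ F = {x | x ∈ P ∧ φ x = c} ∧ ∀ x ∈ P, x - (φ x - c) • v ∈ P

/-- shadow sections -/
def ShadowSection {d : ℕ} (P F : Set (E d)) : Prop := ∃ φ c v, ShadowBy P F φ c v

/-- shadow facets -/
def ShadowFacet {d : ℕ} (P F : Set (E d)) : Prop :=
  ∃ φ c v, ShadowBy P F φ c v ∧ ∀ x ∈ P, c ≤ φ x

/-- `K` is a convex body and `o` an interior point. -/
def Pair {d : ℕ} (K : Set (E d)) (o : E d) : Prop := Convex ℝ K ∧ IsCompact K ∧ o ∈ interior K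

theorem sep_of_cov {d : ℕ} {K : Set (E d)} {o : E d} (h : Pair K o) {N : ℕ}
    (hN : W677.Summand.Cov (H985.Sep.polar K o) N) : SepBy K o N := by
  obtain ⟨T, hT, hcov⟩ := hN
  obtain ⟨H, h1, h2, h3⟩ := H985.Sep.separate h.2.2 T hcov
  refine ⟨H, h1.trans hT, h2, fun u hu => ?_⟩
  obtain ⟨x₀, hx₀, hmax⟩ := h.2.1.exists_isMaxOn ⟨o, interior_subset h.2.2⟩
    (by fun_prop : ContinuousOn (fun x => ⟪u, x⟫_ℝ) K)
  obtain ⟨g, hg, h4, h5⟩ := h3 u x₀ hu hx₀ fun y hy => hmax hy
  exact ⟨g, hg, h4, fun x hx => h5 x hx.1 (le_antisymm (hmax hx.1) (hx.2 x₀ hx₀))⟩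

theorem body {d : ℕ} {K : Set (E d)} {o : E d} (h : Pair K o) :
    W677.Summand.Bdy (H985.Sep.polar K o) :=
  ⟨H985.Sep.convex_polar K o, H985.Sep.isCompact_polar h.2.2,
    H985.Sep.interior_polar_nonempty h.2.1 h.2.2⟩

/-- **Main theorem.** -/
theorem result :
    -- 1. `d - 2` cones
    (∀ (d : ℕ) (K : Set (E d)) (o : E d) (p : Fin d → E d), Pair K o → LinearIndependent ℝ p →
      (∀ i : Fin d, 2 ≤ i.val → InCone K o p i) → SepBy K o (2 ^ d)) ∧
    -- 2. `d` cones
    (∀ (d : ℕ) (K : Set (E d)) (o : E d) (p : Fin d → E d), 1 ≤ d → Pair K o →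
      LinearIndependent ℝ p → (∀ i, InCone K o p i) → ¬ CrossBody K o → SepBy K o (2 ^ d - 1)) ∧
    -- 3. shadow facets and shadow sections of the polar body
    (∀ (d : ℕ) (K F : Set (E d)) (o : E d), Pair K o → ∀ N, RelCoveredBy F N →
      (ShadowFacet (polar K o) F → SepBy K o (2 * N)) ∧
      (ShadowSection (polar K o) F → SepBy K o (3 * N))) := by
  refine ⟨?_, ?_, ?_⟩
  · intro d K o p hK hp h
    obtain ⟨A, hA⟩ := V11317.Had.coord p hp
    have hb := V11317.Had.img_body A V11317.Had.ones (body hK)
    refine sep_of_cov hK (V11317.Had.img_cov A V11317.Had.ones (V11317.Had.cov_of_rcov hb.1 hb.2.2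
      ((V11317.Had.part hb.1 hb.2.1 fun i hi x hx => V11317.Had.lower (h i hi) A hA x hx).mono ?_)))
    refine Nat.pow_le_pow_right (by norm_num) ?_
    have := Submodule.finrank_le (vectorSpan ℝ (V11317.Had.img A V11317.Had.ones
      (H985.Sep.polar K o)))
    rwa [finrank_euclideanSpace, Fintype.card_fin] at this
  · intro d K o p hd hK hp h hcr
    obtain ⟨A, hA⟩ := V11317.Had.coord p hp
    have hb := V11317.Had.img_body A V11317.Had.ones (body hK)
    have hanti := V11317.Had.anti_of_lower hb.1 fun i x hx => V11317.Had.lower (h i) A hA x hx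
    refine sep_of_cov hK (V11317.Had.img_cov A V11317.Had.ones (V11317.Had.anti hb hanti ?_))
    rintro ⟨a, ha⟩
    obtain ⟨t, ht, h1⟩ := V11317.Had.cross_of_box hd hK.1 hK.2.1 (interior_subset hK.2.2) p hp A hA
      (fun i => (h i).1) a ha
    exact hcr ⟨p, t, hp, ht, h1⟩
  · intro d K F o hK N hN
    have hb := body hK
    constructor
    · rintro ⟨φ, c, v, h, hpos⟩
      exact sep_of_cov hK (V11317.Had.cov_of_rcov hb.1 hb.2.2 (V11317.Had.facet_aff hb.1 hb.2.1
        (fun h => h.intrinsicInterior hb.1) h hpos hN))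
    · rintro ⟨φ, c, v, h⟩
      exact sep_of_cov hK (V11317.Had.cov_of_rcov hb.1 hb.2.2 (V11317.Had.sect_aff hb.1 hb.2.1
        (fun h => h.intrinsicInterior hb.1) h hN))

end Pool.Agent.Results.MP_5e7226_co.BodiesInCones
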