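import Pool.Agent.HH284.Cover
import Pool.Agent.H2R2.Frac.Main

set_option autoImplicit false

/-!
# MP_5e7226_co: bodies with few facets

Let `K` be a convex body in `ℝ^d` and `o` an interior point. Suppose that every face of `K` is contained
in one of `V` given faces or strictly separated from `o` by one of `N` given hyperplanes (for a polytope
with `V` facets this holds with `N = 0`). Then

* `s(K, o) < N + (V + 2^(d+1)) / 3` unless `K` is a cross-body centred at `o`;
* `s(K, o) ≤ 2^d` if `3 N + V ≤ 2^d + 3`, and `s(K, o) ≤ 2^d - 1` if `3 N + V ≤ 2^d` and `K` is not a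
  cross-body centred at `o`;
* `s(K, o) ≤ N + 2^d (5/3 + log (V / (3 * 2^d)))` if `V ≥ 3 * 2^d`.

The proof. By the fractional form of the conjecture (`Pool.Agent.H2R2.Frac.main`) there are weights of
total `W ≤ 2^d` (less than `2^d` if `K` is not a cross-body) on hyperplanes such that every face is
separated with weight at least one. For finitely many faces one can pass to an integral system at a
small cost: as long as a hyperplane separates three of the remaining faces, use it; if each hyperplane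
separates at most two of them, the deficiency version of Hall's theorem in the bipartite double cover of
the graph of the jointly separable pairs gives a matching with at least `2/3 (V - W)` edges.
-/

open scoped InnerProductSpace
open Finset

namespace Pool.Agent.Results.MP_5e7226_co.FewFacets

/-- the space `ℝ^d` -/
abbrev E (d : ℕ) : Type := EuclideanSpace ℝ (Fin d)

/-- the face of `K` in the direction `u` (where `⟪u, ·⟫` is maximal on `K`) -/
def face {d : ℕ} (K : Set (E d)) (u : E d) : Set (E d) := {x ∈ K | ∀ y ∈ K, ⟪u, y⟫_ℝ ≤ ⟪u, x⟫_ℝ}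

/-- the hyperplane `{x | ⟪h.1, x⟫ = h.2}` strictly separates the set `S` from the point `o` -/
def Sep {d : ℕ} (o : E d) (h : E d × ℝ) (S : Set (E d)) : Prop :=
  ⟪h.1, o⟫_ℝ < h.2 ∧ ∀ x ∈ S, h.2 < ⟪h.1, x⟫_ℝ

/-- `s(K, o) ≤ n`: there are at most `n` hyperplanes such that every face of `K` is strictly separated
from `o` by one of them -/
def SepBy {d : ℕ} (K : Set (E d)) (o : E d) (n : ℕ) : Prop :=
  ∃ H : Finset (E d × ℝ), H.card ≤ n ∧ ∀ u : E d, u ≠ 0 → ∃ h ∈ H, Sep o h (face K u)

/-- `K` is a cross-body centred at `o` -/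
def CrossBody {d : ℕ} (K : Set (E d)) (o : E d) : Prop :=
  ∃ (v : Fin d → E d) (t : Fin d → ℝ), LinearIndependent ℝ v ∧ (∀ i, 0 < t i) ∧
    K = convexHull ℝ (Set.range (fun i => o + v i) ∪ Set.range (fun i => o - t i • v i))

theorem SepBy.mono {d : ℕ} {K : Set (E d)} {o : E d} {m n : ℕ} (h : SepBy K o m) (hmn : m ≤ n) :
    SepBy K o n := by
  obtain ⟨H, hH, h⟩ := h
  exact ⟨H, hH.trans hmn, h⟩

/-- every face is in one of the faces in the directions `v ∈ S` or separated from `o` by one of the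
hyperplanes `h ∈ H` -/
def Controlled {d : ℕ} (K : Set (E d)) (o : E d) (S : Finset (E d)) (H : Finset (E d × ℝ)) : Prop :=
  (∀ v ∈ S, v ≠ 0) ∧
    ∀ u : E d, u ≠ 0 → (∃ v ∈ S, face K u ⊆ face K v) ∨ ∃ h ∈ H, Sep o h (face K u)

section General

variable {d : ℕ} {K : Set (E d)} {o : E d}

theorem fracCover {S : Finset (E d)} (hS : ∀ v ∈ S, v ≠ 0) {T : Finset (E d × ℝ)}
    {w : E d × ℝ → ℝ} (hw : ∀ h ∈ T, 0 ≤ w h)
    (hcov : ∀ u : E d, u ≠ 0 →
        1 ≤ ∑ h ∈ T, {h : E d × ℝ | ⟪h.1, o⟫_ℝ < h.2 ∧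
          ∀ x ∈ K, (∀ y ∈ K, ⟪u, y⟫_ℝ ≤ ⟪u, x⟫_ℝ) → h.2 < ⟪h.1, x⟫_ℝ}.indicator w h) :
    HH284.FracCover (fun h v => Sep o h (face K v)) S T w := by
  classical
  refine ⟨hw, fun v hv => (hcov v (hS v hv)).trans (le_of_eq ?_)⟩
  refine sum_congr rfl fun h _ => ?_
  have hiff : h ∈ {h : E d × ℝ | ⟪h.1, o⟫_ℝ < h.2 ∧
      ∀ x ∈ K, (∀ y ∈ K, ⟪v, y⟫_ℝ ≤ ⟪v, x⟫_ℝ) → h.2 < ⟪h.1, x⟫_ℝ} ↔ Sep o h (face K v) := by
    unfold Sep face
    constructor
    · rintro ⟨h1, h2⟩
      exact ⟨h1, fun x hx => h2 x hx.1 hx.2⟩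
    · rintro ⟨h1, h2⟩
      exact ⟨h1, fun x hx hx' => h2 x ⟨hx, hx'⟩⟩
  by_cases hh : Sep o h (face K v)
  · rw [Set.indicator_of_mem (hiff.mpr hh), if_pos hh]
  · rw [Set.indicator_of_notMem (fun h' => hh (hiff.mp h')), if_neg hh]

theorem assemble {S : Finset (E d)} {H C : Finset (E d × ℝ)} (h : Controlled K o S H)
    (hC : ∀ v ∈ S, ∃ h ∈ C, Sep o h (face K v)) : SepBy K o (H.card + C.card) := by
  classical
  refine ⟨H ∪ C, card_union_le _ _, fun u hu => ?_⟩
  rcases h.2 u hu with ⟨v, hv, hsub⟩ | ⟨g, hg, hsep⟩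
  · obtain ⟨g, hg, hsep⟩ := hC v hv
    exact ⟨g, mem_union_right _ hg, hsep.1, fun x hx => hsep.2 x (hsub hx)⟩
  · exact ⟨g, mem_union_left _ hg, hsep⟩

theorem bound_le (hd : 1 ≤ d) (hKc : IsCompact K) (hK : Convex ℝ K) (ho : o ∈ interior K)
    {S : Finset (E d)} {H : Finset (E d × ℝ)} (h : Controlled K o S H) :
    SepBy K o (H.card + (S.card + 2 ^ (d + 1)) / 3) := by
  obtain ⟨T, w, hw, hsum, hcov⟩ := (Pool.Agent.H2R2.Frac.main d hd K hKc hK o ho).1
  obtain ⟨C, _, hCc, hC⟩ := HH284.small_cover S.card S le_rfl (fracCover h.1 hw hcov)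
  refine (assemble h hC).mono (Nat.add_le_add_left ?_ _)
  rw [Nat.le_div_iff_mul_le (by norm_num)]
  have h1 : ((C.card * 3 : ℕ) : ℝ) ≤ ((S.card + 2 ^ (d + 1) : ℕ) : ℝ) := by
    push_cast
    rw [pow_succ]
    linarith
  exact_mod_cast h1

theorem bound_lt (hd : 1 ≤ d) (hKc : IsCompact K) (hK : Convex ℝ K) (ho : o ∈ interior K)
    (hcross : ¬ CrossBody K o) {S : Finset (E d)} {H : Finset (E d × ℝ)}
    (h : Controlled K o S H) : SepBy K o (H.card + (S.card + 2 ^ (d + 1) - 1) / 3) := by
  have hmain := (Pool.Agent.H2R2.Frac.main d hd K hKc hK o ho).2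
  have hn := mt hmain.mp hcross
  push Not at hn
  obtain ⟨T, w, hw, hcov, hsum⟩ := hn
  obtain ⟨C, _, hCc, hC⟩ := HH284.small_cover S.card S le_rfl (fracCover h.1 hw hcov)
  refine (assemble h hC).mono (Nat.add_le_add_left ?_ _)
  rw [Nat.le_div_iff_mul_le (by norm_num)]
  have h1 : ((C.card * 3 : ℕ) : ℝ) < ((S.card + 2 ^ (d + 1) : ℕ) : ℝ) := by
    push_cast
    rw [pow_succ]
    linarith
  have h2 : C.card * 3 < S.card + 2 ^ (d + 1) := by exact_mod_cast h1
  omega

theorem bound_log (hd : 1 ≤ d) (hKc : IsCompact K) (hK : Convex ℝ K) (ho : o ∈ interior K)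
    {S : Finset (E d)} {H : Finset (E d × ℝ)} (h : Controlled K o S H)
    (hbig : 3 * 2 ^ d ≤ S.card) :
    ∃ n, SepBy K o n ∧
      (n : ℝ) ≤ H.card + 2 ^ d * (5 / 3 + Real.log (S.card / (3 * 2 ^ d))) := by
  obtain ⟨T, w, hw, hsum, hcov⟩ := (Pool.Agent.H2R2.Frac.main d hd K hKc hK o ho).1
  obtain ⟨C, _, hCc, hC⟩ := HH284.large_cover (n := (2 : ℝ) ^ d) (by positivity) hsum S.card S le_rfl
    (fracCover h.1 hw hcov) (by exact_mod_cast hbig)
  refine ⟨_, assemble h hC, ?_⟩
  push_cast
  linarith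

end General

section Cross

variable {d : ℕ}

/-- Cross-bodies are separated by `2^d` hyperplanes. -/
theorem cross (hd : 1 ≤ d) {K : Set (E d)} {o : E d} (ho : o ∈ interior K)
    (h : CrossBody K o) : SepBy K o (2 ^ d) := by
  classical
  have hne : Nonempty (Fin d) := ⟨⟨0, by omega⟩⟩
  obtain ⟨v, t, hli, ht, hKeq⟩ := h
  -- dual basis
  have hcard : Fintype.card (Fin d) = Module.finrank ℝ (E d) := by simp
  let b : Module.Basis (Fin d) ℝ (E d) := basisOfLinearIndependentOfCardEqFinrank hli hcard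
  have hb : ∀ i, b i = v i := fun i => by simp [b]
  -- the vector representing the functional with the values `1` or `-1 / t i` on `v i`
  have hrep : ∀ s : Fin d → ℝ, ∃ n : E d, ∀ i, ⟪n, v i⟫_ℝ = s i := by
    intro s
    let φ : E d →ₗ[ℝ] ℝ := b.constr ℝ s
    refine ⟨(InnerProductSpace.toDual ℝ (E d)).symm (LinearMap.toContinuousLinearMap φ), fun i => ?_⟩
    rw [InnerProductSpace.toDual_symm_apply]
    change φ (v i) = s i
    rw [← hb i]
    exact b.constr_basis ℝ s i
  choose n hn using hrep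
  let val : (Fin d → Bool) → Fin d → ℝ := fun ε i => if ε i then 1 else -(1 / t i)
  let H : Finset (E d × ℝ) := univ.image (fun ε : Fin d → Bool =>
    (n (val ε), ⟪n (val ε), o⟫_ℝ + 1 / 2))
  refine ⟨H, ?_, fun u hu => ?_⟩
  · refine card_image_le.trans ?_
    simp
  · let ε : Fin d → Bool := fun i => decide (0 ≤ ⟪u, v i⟫_ℝ)
    refine ⟨(n (val ε), ⟪n (val ε), o⟫_ℝ + 1 / 2), mem_image_of_mem _ (mem_univ ε), ?_, ?_⟩
    · simp
    · intro x hx
      -- the maximum of `⟪u, ·⟫` on `K` is larger than the value at `o`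
      have hM : ⟪u, o⟫_ℝ < ⟪u, x⟫_ℝ := by
        obtain ⟨r, hr, hball⟩ := Metric.isOpen_iff.mp isOpen_interior o ho
        have hu0 : 0 < ‖u‖ := norm_pos_iff.mpr hu
        have hmem : o + (r / (2 * ‖u‖)) • u ∈ K := by
          apply interior_subset
          apply hball
          rw [mem_ball_iff_norm, add_sub_cancel_left, norm_smul, Real.norm_of_nonneg (by positivity)]
          field_simp
          linarith
        have h1 := hx.2 _ hmem
        rw [inner_add_right, real_inner_smul_right, real_inner_self_eq_norm_sq] at h1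
        have h2 : 0 < r / (2 * ‖u‖) * ‖u‖ ^ 2 := by positivity
        linarith
      set M := ⟪u, x⟫_ℝ - ⟪u, o⟫_ℝ with hMdef
      have hM0 : 0 < M := by rw [hMdef]; linarith
      -- a lower bound for the values at the vertices
      obtain ⟨B, hB0, hB⟩ : ∃ B : ℝ, 0 ≤ B ∧ ∀ i, t i ≤ B ∧ 1 / t i ≤ B := by
        refine ⟨∑ i, (t i + 1 / t i), sum_nonneg fun i _ => ?_, fun i => ?_⟩
        · have := ht i
          positivity
        · have hle : t i + 1 / t i ≤ ∑ j, (t j + 1 / t j) :=
            single_le_sum (f := fun j => t j + 1 / t j) (fun j _ => by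
              have := ht j
              positivity) (mem_univ i)
          have h1 := ht i
          have h2 : 0 < 1 / t i := by positivity
          constructor <;> linarith
      set C := (1 + B) / M with hC
      have hC0 : 0 < C := by positivity
      have hCM : C * M = 1 + B := by rw [hC]; field_simp
      have hvert : ∀ p ∈ Set.range (fun i => o + v i) ∪ Set.range (fun i => o - t i • v i),
          1 - C * (M - (⟪u, p⟫_ℝ - ⟪u, o⟫_ℝ)) ≤ ⟪n (val ε), p⟫_ℝ - ⟪n (val ε), o⟫_ℝ := by
        intro p hp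
        have hpK : p ∈ K := by rw [hKeq]; exact subset_convexHull ℝ _ hp
        have hpM : ⟪u, p⟫_ℝ - ⟪u, o⟫_ℝ ≤ M := by
          have := hx.2 p hpK
          rw [hMdef]
          linarith
        rcases hp with ⟨i, rfl⟩ | ⟨i, rfl⟩
        · simp only [inner_add_right, add_sub_cancel_left] at hpM ⊢
          rw [hn]
          by_cases hi : 0 ≤ ⟪u, v i⟫_ℝ
          · have : val ε i = 1 := by simp [val, ε, hi]
            rw [this]
            nlinarith
          · have : val ε i = -(1 / t i) := by simp [val, ε, hi]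
            rw [this]
            push Not at hi
            have h1 := (hB i).2
            have h2 : C * M ≤ C * (M - ⟪u, v i⟫_ℝ) :=
              mul_le_mul_of_nonneg_left (by linarith) hC0.le
            linarith
        · simp only [inner_sub_right, real_inner_smul_right] at hpM ⊢
          rw [hn]
          have hti := ht i
          by_cases hi : 0 ≤ ⟪u, v i⟫_ℝ
          · have : val ε i = 1 := by simp [val, ε, hi]
            rw [this]
            have h1 := (hB i).1
            have h2 : 0 ≤ t i * ⟪u, v i⟫_ℝ := mul_nonneg hti.le hi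
            have h3 : C * M ≤ C * (M - (⟪u, o⟫_ℝ - t i * ⟪u, v i⟫_ℝ - ⟪u, o⟫_ℝ)) :=
              mul_le_mul_of_nonneg_left (by linarith) hC0.le
            linarith
          · have : val ε i = -(1 / t i) := by simp [val, ε, hi]
            rw [this]
            have h1 : t i * -(1 / t i) = -1 := by
              field_simp
            rw [h1]
            have h2 : 0 ≤ C * (M - (⟪u, o⟫_ℝ - t i * ⟪u, v i⟫_ℝ - ⟪u, o⟫_ℝ)) :=
              mul_nonneg hC0.le (by linarith)
            linarith
      -- the same inequality on the whole of `K`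
      have hconv : Convex ℝ {p : E d | 1 - C * (M - (⟪u, p⟫_ℝ - ⟪u, o⟫_ℝ)) ≤
          ⟪n (val ε), p⟫_ℝ - ⟪n (val ε), o⟫_ℝ} := by
        intro p hp q hq a c ha hc hac
        simp only [Set.mem_ofPred_eq, inner_add_right, real_inner_smul_right] at hp hq ⊢
        have h1 := mul_le_mul_of_nonneg_left hp ha
        have h2 := mul_le_mul_of_nonneg_left hq hc
        have e1 : (1 : ℝ) = a * 1 + c * 1 := by linarith
        have e2 : C * M = a * (C * M) + c * (C * M) := by rw [← add_mul, hac, one_mul]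
        have e3 : ⟪n (val ε), o⟫_ℝ = a * ⟪n (val ε), o⟫_ℝ + c * ⟪n (val ε), o⟫_ℝ := by
          rw [← add_mul, hac, one_mul]
        have e4 : C * ⟪u, o⟫_ℝ = a * (C * ⟪u, o⟫_ℝ) + c * (C * ⟪u, o⟫_ℝ) := by
          rw [← add_mul, hac, one_mul]
        nlinarith
      have hxK : x ∈ convexHull ℝ
          (Set.range (fun i => o + v i) ∪ Set.range (fun i => o - t i • v i)) := by
        rw [← hKeq]
        exact hx.1
      have hfin : 1 - C * (M - (⟪u, x⟫_ℝ - ⟪u, o⟫_ℝ)) ≤ ⟪n (val ε), x⟫_ℝ - ⟪n (val ε), o⟫_ℝ :=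
        convexHull_min hvert hconv hxK
      rw [← hMdef, sub_self, mul_zero, sub_zero] at hfin
      change ⟪n (val ε), o⟫_ℝ + 1 / 2 < ⟪n (val ε), x⟫_ℝ
      linarith

end Cross

section Polytope

variable {d f : ℕ}

/-- The polytope given by the inequalities `⟪a i, x⟫ ≤ b i`. -/
def Poly (a : Fin f → E d) (b : Fin f → ℝ) : Set (E d) := {x | ∀ i, ⟪a i, x⟫_ℝ ≤ b i}

/-- The faces of a polytope are contained in its facets. -/
theorem controlled_poly (a : Fin f → E d) (b : Fin f → ℝ) (hKc : IsCompact (Poly a b))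
    (o : E d) (ho : o ∈ interior (Poly a b)) :
    ∃ S : Finset (E d), S.card ≤ f ∧ Controlled (Poly a b) o S ∅ := by
  classical
  refine ⟨(univ.image a).filter (fun v => v ≠ 0), ?_, fun v hv => (mem_filter.mp hv).2,
    fun u hu => Or.inl ?_⟩
  · refine (card_filter_le _ _).trans (card_image_le.trans ?_)
    simp
  · have hoK : o ∈ Poly a b := interior_subset ho
    obtain ⟨x₀, hx₀K, hx₀⟩ := hKc.exists_isMaxOn ⟨o, hoK⟩
      (f := fun x => ⟪u, x⟫_ℝ) (by fun_prop)
    have hx₀' : ∀ y ∈ Poly a b, ⟪u, y⟫_ℝ ≤ ⟪u, x₀⟫_ℝ := fun y hy => hx₀ hy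
    -- some inequality with nonzero normal is an equality on the whole face
    have key : ∃ i, a i ≠ 0 ∧ ∀ x ∈ face (Poly a b) u, ⟪a i, x⟫_ℝ = b i := by
      by_contra hcon
      push Not at hcon
      have hy : ∀ i, ∃ y ∈ face (Poly a b) u, a i ≠ 0 → ⟪a i, y⟫_ℝ < b i := by
        intro i
        by_cases hai : a i ≠ 0
        · obtain ⟨y, hy, hne⟩ := hcon i hai
          exact ⟨y, hy, fun _ => lt_of_le_of_ne (hy.1 i) hne⟩
        · exact ⟨x₀, ⟨hx₀K, hx₀'⟩, fun h => absurd h hai⟩
      choose y hyF hy using hy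
      -- the average
      have hface : Convex ℝ (face (Poly a b) u) := by
        intro p hp q hq α β hα hβ hαβ
        refine ⟨fun i => ?_, fun z hz => ?_⟩
        · rw [inner_add_right, real_inner_smul_right, real_inner_smul_right]
          have h1 := mul_le_mul_of_nonneg_left (hp.1 i) hα
          have h2 := mul_le_mul_of_nonneg_left (hq.1 i) hβ
          calc α * ⟪a i, p⟫_ℝ + β * ⟪a i, q⟫_ℝ ≤ α * b i + β * b i := add_le_add h1 h2
            _ = b i := by rw [← add_mul, hαβ, one_mul]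
        · rw [inner_add_right, real_inner_smul_right, real_inner_smul_right]
          have h1 := mul_le_mul_of_nonneg_left (hp.2 z hz) hα
          have h2 := mul_le_mul_of_nonneg_left (hq.2 z hz) hβ
          calc ⟪u, z⟫_ℝ = α * ⟪u, z⟫_ℝ + β * ⟪u, z⟫_ℝ := by rw [← add_mul, hαβ, one_mul]
            _ ≤ _ := add_le_add h1 h2
      let z : E d := ∑ j : Option (Fin f), (1 / ((f : ℝ) + 1)) • (j.elim x₀ y)
      have hf0 : (0 : ℝ) < (f : ℝ) + 1 := by positivity
      have hw1 : ∑ _j : Option (Fin f), (1 / ((f : ℝ) + 1)) = 1 := by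
        rw [sum_const, card_univ, Fintype.card_option, Fintype.card_fin, nsmul_eq_mul]
        push_cast
        field_simp
      have hzF : z ∈ face (Poly a b) u := by
        refine hface.sum_mem (fun _ _ => by positivity) hw1 (fun j _ => ?_)
        cases j with
        | none => exact ⟨hx₀K, hx₀'⟩
        | some i => exact hyF i
      have hz : ∀ i, a i ≠ 0 → ⟪a i, z⟫_ℝ < b i := by
        intro i hi
        simp only [z]
        rw [inner_sum]
        simp only [real_inner_smul_right]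
        have hb : b i = ∑ _j : Option (Fin f), (1 / ((f : ℝ) + 1)) * b i := by
          rw [← sum_mul, hw1, one_mul]
        rw [hb]
        refine sum_lt_sum (fun j _ => ?_) ⟨some i, mem_univ _, ?_⟩
        · apply mul_le_mul_of_nonneg_left _ (by positivity)
          cases j with
          | none => exact hx₀K i
          | some k => exact (hyF k).1 i
        · exact mul_lt_mul_of_pos_left (hy i hi) (by positivity)
      -- move a little in the direction `u`
      have hev : ∀ i, ∀ᶠ e : ℝ in nhdsWithin 0 (Set.Ioi 0), ⟪a i, z + e • u⟫_ℝ ≤ b i := by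
        intro i
        by_cases hai : a i = 0
        · refine Filter.Eventually.of_forall fun e => ?_
          rw [hai, inner_zero_left]
          have := hoK i
          rwa [hai, inner_zero_left] at this
        · have hc : Continuous fun e : ℝ => ⟪a i, z + e • u⟫_ℝ := by fun_prop
          have h2 : Filter.Tendsto (fun e : ℝ => ⟪a i, z + e • u⟫_ℝ) (nhds 0)
              (nhds ⟪a i, z⟫_ℝ) := by
            have := hc.tendsto 0
            simpa using this
          exact ((h2.mono_left nhdsWithin_le_nhds).eventually_lt_const (hz i hai)).mono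
            fun e he => he.le
      have hpos : ∀ᶠ e : ℝ in nhdsWithin 0 (Set.Ioi 0), (0 : ℝ) < e := self_mem_nhdsWithin
      obtain ⟨e, he, he0⟩ := ((Filter.eventually_all.mpr hev).and hpos).exists
      have h3 := hzF.2 (z + e • u) he
      rw [inner_add_right, real_inner_smul_right, real_inner_self_eq_norm_sq] at h3
      have h4 : 0 < e * ‖u‖ ^ 2 := mul_pos he0 (pow_pos (norm_pos_iff.mpr hu) 2)
      linarith
    obtain ⟨i, hi, hface⟩ := key
    refine ⟨a i, mem_filter.mpr ⟨mem_image_of_mem a (mem_univ i), hi⟩, fun x hx => ?_⟩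
    exact ⟨hx.1, fun y hy => by rw [hface x hx]; exact hy i⟩

end Polytope

/-- The bounds for `s(K, o)` if every face of `K` is contained in one of `V` faces or strictly
separated from `o` by one of `N` hyperplanes:
* `s(K, o) < N + (V + 2^(d+1)) / 3` unless `K` is a cross-body centred at `o`;
* `s(K, o) ≤ 2^d` if `3 N + V ≤ 2^d + 3`;
* `s(K, o) ≤ 2^d - 1` if `3 N + V ≤ 2^d`, unless `K` is a cross-body centred at `o`;
* `s(K, o) ≤ N + 2^d (5/3 + log (V / (3 * 2^d)))` if `V ≥ 3 * 2^d`. -/
def Bounds {d : ℕ} (K : Set (E d)) (o : E d) (N V : ℕ) : Prop :=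
  (¬ CrossBody K o → SepBy K o (N + (V + 2 ^ (d + 1) - 1) / 3)) ∧
  (3 * N + V ≤ 2 ^ d + 3 → SepBy K o (2 ^ d)) ∧
  (3 * N + V ≤ 2 ^ d → ¬ CrossBody K o → SepBy K o (2 ^ d - 1)) ∧
  (3 * 2 ^ d ≤ V → ∃ n, SepBy K o n ∧
    (n : ℝ) ≤ N + 2 ^ d * (5 / 3 + Real.log (V / (3 * 2 ^ d))))

theorem bounds {d : ℕ} (hd : 1 ≤ d) {K : Set (E d)} (hKc : IsCompact K) (hK : Convex ℝ K) {o : E d}
    (ho : o ∈ interior K) {S : Finset (E d)} {H : Finset (E d × ℝ)} (h : Controlled K o S H)
    {V : ℕ} (hV : S.card ≤ V) : Bounds K o H.card V := by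
  have hpow : 2 ^ (d + 1) = 2 * 2 ^ d := by rw [pow_succ, mul_comm]
  have hpos : 0 < 2 ^ d := by positivity
  refine ⟨fun hc => (bound_lt hd hKc hK ho hc h).mono ?_, fun h3 => ?_, fun h3 hc => ?_,
    fun hbig => ?_⟩
  · have : (S.card + 2 ^ (d + 1) - 1) / 3 ≤ (V + 2 ^ (d + 1) - 1) / 3 :=
      Nat.div_le_div_right (by omega)
    omega
  · by_cases hc : CrossBody K o
    · exact cross hd ho hc
    · refine (bound_lt hd hKc hK ho hc h).mono ?_
      rw [hpow]
      omega
  · refine (bound_lt hd hKc hK ho hc h).mono ?_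
    rw [hpow]
    omega
  · have hV0 : (0 : ℝ) < V := by
      have : (3 * 2 ^ d : ℕ) ≤ V := hbig
      have h3 : (0 : ℕ) < 3 * 2 ^ d := by positivity
      exact_mod_cast h3.trans_le this
    have hR : (3 * 2 ^ d : ℝ) ≤ V := by exact_mod_cast hbig
    by_cases hS : 3 * 2 ^ d ≤ S.card
    · obtain ⟨n, hn, hnle⟩ := bound_log hd hKc hK ho h hS
      refine ⟨n, hn, hnle.trans ?_⟩
      have hS0 : (0 : ℝ) < S.card := by
        have h3 : (0 : ℕ) < 3 * 2 ^ d := by positivity
        exact_mod_cast h3.trans_le hS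
      gcongr
    · push Not at hS
      refine ⟨_, bound_le hd hKc hK ho h, ?_⟩
      have h1 : (S.card + 2 ^ (d + 1)) / 3 * 3 ≤ S.card + 2 ^ (d + 1) := Nat.div_mul_le_self _ _
      have h2 : (S.card + 2 ^ (d + 1)) / 3 * 3 ≤ 5 * 2 ^ d := by
        rw [hpow] at h1 ⊢
        omega
      have h3 : (((S.card + 2 ^ (d + 1)) / 3 * 3 : ℕ) : ℝ) ≤ ((5 * 2 ^ d : ℕ) : ℝ) := by
        exact_mod_cast h2
      push_cast at h3 ⊢
      have hlog : 0 ≤ Real.log (V / (3 * 2 ^ d)) := by
        apply Real.log_nonneg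
        rw [le_div_iff₀ (by positivity)]
        linarith
      have h4 : (0 : ℝ) ≤ 2 ^ d * Real.log (V / (3 * 2 ^ d)) := by positivity
      have h5 : (((S.card + 2 ^ (d + 1)) / 3 : ℕ) : ℝ) ≤ 2 ^ d * (5 / 3) := by linarith
      linarith

/-- **Main theorem.** If every face of the convex body `K` is contained in one of the faces in the
directions `v ∈ S` or strictly separated from `o` by one of the hyperplanes in `H`, then the bounds
`Bounds` hold with `N = |H|`, `V = |S|`. For a polytope with `f` inequalities they hold with `N = 0` and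
`V = f`. -/
theorem result (d : ℕ) (hd : 1 ≤ d) (K : Set (E d)) (hKc : IsCompact K) (hK : Convex ℝ K) (o : E d)
    (ho : o ∈ interior K) :
    (∀ (S : Finset (E d)) (H : Finset (E d × ℝ)), Controlled K o S H → Bounds K o H.card S.card) ∧
    (∀ (f : ℕ) (a : Fin f → E d) (b : Fin f → ℝ), K = Poly a b → Bounds K o 0 f) := by
  refine ⟨fun S H h => bounds hd hKc hK ho h le_rfl, fun f a b hKeq => ?_⟩
  subst hKeq
  obtain ⟨S, hS, hcon⟩ := controlled_poly a b hKc o ho
  exact bounds hd hKc hK ho hcon hS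

end Pool.Agent.Results.MP_5e7226_co.FewFacets
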